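import Pool.Agent.Work.MP_164b00_al.Hedge.Main

/-!
An indecomposable stably free module of rank two over the group ring of a torsion-free
polycyclic group.
-/

namespace Pool.Agent.Results.MP_164b00_al.Indecomposable

open Pool.Agent.Work.MP_164b00_al

theorem result :
    IsTorsionFreeGroup Grp ∧ IsPolycyclic Grp ∧
      ∀ (k : Type) [CommRing k] [IsDomain k] [IsNoetherianRing k], Nonempty (k →+* ℝ) →
        ∃ (P : Type) (_ : AddCommGroup P) (_ : Module (MonoidAlgebra k Grp) P),
          Nonempty ((P × MonoidAlgebra k Grp) ≃ₗ[MonoidAlgebra k Grp]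
            (Fin 3 → MonoidAlgebra k Grp)) ∧
          (∀ M N : Submodule (MonoidAlgebra k Grp) P, IsCompl M N → M = ⊥ ∨ N = ⊥) ∧
          ∀ f : P →ₗ[MonoidAlgebra k Grp] MonoidAlgebra k Grp, ¬ Function.Injective f :=
  ⟨torsionFree, polycyclic, fun k _ _ _ ⟨φ⟩ =>
    ⟨PP k, inferInstance, inferInstance, (exists_equiv (k := k)).elim fun e _ => ⟨e.symm⟩,
      Hedge.indecomposable φ, Hedge.no_embedding⟩⟩

end Pool.Agent.Results.MP_164b00_al.Indecomposable
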