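import Pool.Agent.Work.MP_164b00_al.Main

/-!
A finitely generated projective module over the group ring of a torsion-free polycyclic group
that is not the direct sum of a free module and a left ideal.
-/

namespace Pool.Agent.Results.MP_164b00_al.StablyFree

open Pool.Agent.Work.MP_164b00_al

universe u

theorem result :
    IsTorsionFreeGroup Grp ∧ IsPolycyclic Grp ∧
      ∀ (k : Type) [CommRing k], Nonempty (k →+* ℝ) →
        HasExoticProjective.{u} (MonoidAlgebra k Grp) :=
  ⟨torsionFree, polycyclic, fun k _ ⟨φ⟩ => ⟨PP k, inferInstance, inferInstance, main φ⟩⟩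

end Pool.Agent.Results.MP_164b00_al.StablyFree
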